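import Pool.Agent.P8H71.SK.Main

/-!
# Project SK: conjugates of positive matrices (helper71)
-/

set_option autoImplicit false

open MeasureTheory Set Filter Topology
open scoped ENNReal symmDiff

namespace Pool.Agent.P8H71.SK

variable {d : ℕ}

lemma coc_conj {Y : Type} (T : Y → Y) (φ : Y → SLd d) (h : SLd d) (n : ℕ) (y : Y) :
    coc T (fun y => h⁻¹ * φ y * h) n y = h⁻¹ * coc T φ n y * h := by
  induction n with
  | zero => simp [coc]
  | succ n ih =>
    show h⁻¹ * φ (T^[n] y) * h * coc T (fun y => h⁻¹ * φ y * h) n y = h⁻¹ * (φ (T^[n] y) * coc T φ n y) * h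
    rw [ih]
    group

/-- the sum of the absolute values of the entries -/
noncomputable def sa (A : Matrix (Fin d) (Fin d) ℝ) : ℝ := ∑ a, ∑ b, |A a b|

lemma le_sa (A : Matrix (Fin d) (Fin d) ℝ) (a b : Fin d) : |A a b| ≤ sa A := by
  unfold sa
  refine le_trans ?_ (Finset.single_le_sum (f := fun a => ∑ b, |A a b|)
    (fun _ _ => Finset.sum_nonneg fun _ _ => abs_nonneg _) (Finset.mem_univ a))
  exact Finset.single_le_sum (f := fun b => |A a b|) (fun j _ => abs_nonneg _) (Finset.mem_univ b)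

lemma sa_nonneg (A : Matrix (Fin d) (Fin d) ℝ) : 0 ≤ sa A :=
  Finset.sum_nonneg fun _ _ => Finset.sum_nonneg fun _ _ => abs_nonneg _

lemma entry_mul (A B : Matrix (Fin d) (Fin d) ℝ) {C : ℝ} (hB : ∀ a b, |B a b| ≤ C) (a b : Fin d) :
    |(A * B) a b| ≤ sa A * C := by
  rw [Matrix.mul_apply]
  refine (Finset.abs_sum_le_sum_abs _ _).trans ?_
  have hC : 0 ≤ C := (abs_nonneg _).trans (hB a b)
  calc ∑ j, |A a j * B j b| ≤ ∑ j, |A a j| * C := by
        refine Finset.sum_le_sum fun j _ => ?_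
        rw [abs_mul]
        exact mul_le_mul_of_nonneg_left (hB j b) (abs_nonneg _)
    _ = (∑ j, |A a j|) * C := by rw [Finset.sum_mul]
    _ ≤ sa A * C := by
        refine mul_le_mul_of_nonneg_right ?_ hC
        exact Finset.single_le_sum (f := fun a => ∑ b, |A a b|)
          (fun i _ => Finset.sum_nonneg fun j _ => abs_nonneg _) (Finset.mem_univ a)

lemma entry_mul' (A B : Matrix (Fin d) (Fin d) ℝ) {C : ℝ} (hA : ∀ a b, |A a b| ≤ C) (a b : Fin d) :
    |(A * B) a b| ≤ C * sa B := by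
  rw [Matrix.mul_apply]
  refine (Finset.abs_sum_le_sum_abs _ _).trans ?_
  have hC : 0 ≤ C := (abs_nonneg _).trans (hA a b)
  calc ∑ j, |A a j * B j b| ≤ ∑ j, C * |B j b| := by
        refine Finset.sum_le_sum fun j _ => ?_
        rw [abs_mul]
        exact mul_le_mul_of_nonneg_right (hA a j) (abs_nonneg _)
    _ = C * ∑ j, |B j b| := by rw [Finset.mul_sum]
    _ ≤ C * sa B := by
        refine mul_le_mul_of_nonneg_left ?_ hC
        unfold sa
        refine Finset.sum_le_sum fun j _ => ?_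
        exact Finset.single_le_sum (f := fun b => |B j b|) (fun i _ => abs_nonneg _) (Finset.mem_univ b)

/-- conjugation does not change the growth -/
lemma grow_conj (h : SLd d) (P : ℕ → SLd d) (hP : ∀ C : ℝ, ∀ᶠ n in atTop, ∃ a b, C < |(h⁻¹ * P n * h).1 a b|) (C : ℝ) :
    ∀ᶠ n in atTop, ∃ a b, C < |(P n).1 a b| := by
  filter_upwards [hP (sa (h⁻¹).1 * C * sa h.1)] with n hn
  by_contra hcon
  push Not at hcon
  obtain ⟨a, b, hab⟩ := hn
  have h1 : ∀ a b, |((h⁻¹).1 * (P n).1) a b| ≤ sa (h⁻¹).1 * C := fun a b => entry_mul _ _ hcon a b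
  have h2 := entry_mul' _ h.1 h1 a b
  have h3 : (h⁻¹ * P n * h).1 = (h⁻¹).1 * (P n).1 * h.1 := rfl
  rw [h3] at hab
  linarith

/-- the tuples with a common conjugate into the positive matrices -/
def Pos (d n : ℕ) : Set (Fin n → SLd d) := {g | ∃ h : SLd d, ∀ j a b, 0 < (h⁻¹ * g j * h).1 a b}

lemma entry_cont (a b : Fin d) : Continuous fun g : SLd d => g.1 a b :=
  (continuous_subtype_val : Continuous (Subtype.val : SLd d → Matrix (Fin d) (Fin d) ℝ)).matrix_elem a b

lemma pos_open (d n : ℕ) : IsOpen (Pos d n) := by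
  have h1 : Pos d n = ⋃ h : SLd d, ⋂ j : Fin n, ⋂ a : Fin d, ⋂ b : Fin d,
      {g : Fin n → SLd d | 0 < (h⁻¹ * g j * h).1 a b} := by
    ext g
    simp [Pos]
  rw [h1]
  refine isOpen_iUnion fun h => isOpen_iInter_of_finite fun j => isOpen_iInter_of_finite fun a =>
    isOpen_iInter_of_finite fun b => ?_
  refine isOpen_lt continuous_const ?_
  exact (entry_cont a b).comp (by fun_prop)

lemma pos_nonempty (d n : ℕ) (hd : 2 ≤ d) : (Pos d n).Nonempty := by
  have hd0 : (0 : ℝ) < 1 + d := by positivity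
  obtain ⟨r, hr⟩ : ∃ r : ℝ, r = (1 + (d : ℝ)) ^ (-(1 / (d : ℝ))) := ⟨_, rfl⟩
  have hr0 : 0 < r := by rw [hr]; positivity
  have hdet : (r • ((1 : Matrix (Fin d) (Fin d) ℝ) + Matrix.vecMulVec (fun _ => 1) (fun _ => 1))).det = 1 := by
    rw [Matrix.det_smul, Matrix.vecMulVec_eq Unit, Matrix.det_one_add_replicateCol_mul_replicateRow]
    have h1 : (fun _ : Fin d => (1 : ℝ)) ⬝ᵥ (fun _ : Fin d => (1 : ℝ)) = d := by
      simp [dotProduct]
    rw [h1, Fintype.card_fin, hr, ← Real.rpow_natCast, ← Real.rpow_mul hd0.le]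
    have h2 : -(1 / (d : ℝ)) * d = -1 := by
      have : (d : ℝ) ≠ 0 := by positivity
      field_simp
    rw [h2, Real.rpow_neg_one]
    exact inv_mul_cancel₀ hd0.ne'
  obtain ⟨A, hA⟩ : ∃ A : SLd d, A = ⟨_, hdet⟩ := ⟨_, rfl⟩
  refine ⟨fun _ => A, 1, fun j a b => ?_⟩
  rw [inv_one, one_mul, mul_one, hA]
  show 0 < r * (((1 : Matrix (Fin d) (Fin d) ℝ) a b) + 1 * 1)
  have h2 : 0 ≤ (1 : Matrix (Fin d) (Fin d) ℝ) a b := by
    rw [Matrix.one_apply]
    split_ifs <;> norm_num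
  have h3 : 0 < (1 : Matrix (Fin d) (Fin d) ℝ) a b + 1 * 1 := by linarith
  exact mul_pos hr0 h3

/-- growth of the cocycles with values in conjugates of positive matrices -/
lemma pos_grow (hpos : S_POS) (hd : 2 ≤ d) {n : ℕ} (g : Fin n → SLd d) (hg : g ∈ Pos d n) (Y : Type) (T : Y → Y)
    (ix : Y → Fin n) (y : Y) (C : ℝ) : ∀ᶠ k in atTop, ∃ a b, C < |(coc T (fun y => g (ix y)) k y).1 a b| := by
  obtain ⟨h, hh⟩ := hg
  refine grow_conj h _ (fun C => ?_) C
  have h1 := hpos d hd Y T (fun y => h⁻¹ * g (ix y) * h) (by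
    have : (range fun y => h⁻¹ * g (ix y) * h) ⊆ range fun j : Fin n => h⁻¹ * g j * h := by
      rintro _ ⟨y, rfl⟩
      exact ⟨ix y, rfl⟩
    exact (Set.finite_range _).subset this) (fun y a b => hh (ix y) a b) y C
  filter_upwards [h1] with k hk
  obtain ⟨a, b, hab⟩ := hk
  refine ⟨a, b, ?_⟩
  rwa [coc_conj T (fun y => g (ix y)) h k y] at hab

end Pool.Agent.P8H71.SK
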