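import Pool.Agent.P8H71.SK.Stm

/-!
# Project SK: the assembly (helper71)
-/

set_option autoImplicit false

open MeasureTheory Set Filter Topology
open scoped ENNReal symmDiff

namespace Pool.Agent.P8H71.SK

section

variable {Y X G : Type} [Group G] [MulAction G X]

/-- the skew product -/
def skew (T : Y → Y) (φ : Y → G) (p : Y × X) : Y × X := (T p.1, φ p.1 • p.2)

lemma skew_iter (T : Y → Y) (φ : Y → G) (S : Set (Y × X)) (hS : skew T φ ⁻¹' S = S) (n : ℕ) (y : Y) (x : X) :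
    (T^[n] y, coc T φ n y • x) ∈ S ↔ (y, x) ∈ S := by
  induction n with
  | zero => simp [coc]
  | succ n ih =>
    rw [← ih, Function.iterate_succ_apply']
    have h1 : (T^[n] y, coc T φ n y • x) ∈ S ↔ (T^[n] y, coc T φ n y • x) ∈ skew T φ ⁻¹' S := by rw [hS]
    rw [h1]
    show (T (T^[n] y), (φ (T^[n] y) * coc T φ n y) • x) ∈ S ↔ (T (T^[n] y), φ (T^[n] y) • coc T φ n y • x) ∈ S
    rw [mul_smul]

lemma section_eq (T : Y → Y) (φ : Y → G) (S : Set (Y × X)) (hS : skew T φ ⁻¹' S = S) (n : ℕ) (y : Y) :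
    (fun x : X => (coc T φ n y)⁻¹ • x) ⁻¹' (Prod.mk y ⁻¹' S) = Prod.mk (T^[n] y) ⁻¹' S := by
  ext x
  show (y, (coc T φ n y)⁻¹ • x) ∈ S ↔ (T^[n] y, x) ∈ S
  rw [← skew_iter T φ S hS n y, smul_inv_smul]

end

theorem sc (d : ℕ) : SecondCountableTopology (SLd d) := by
  unfold SLd Matrix.SpecialLinearGroup
  have : SecondCountableTopology (Matrix (Fin d) (Fin d) ℝ) :=
    inferInstanceAs (SecondCountableTopology (Fin d → Fin d → ℝ))
  exact TopologicalSpace.Subtype.secondCountableTopology _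

theorem main (hgrp : S_GRP) (hlen : S_LEN) (herg : S_ERG) (hrec : S_REC) (d : ℕ) (hd : 2 ≤ d)
    [MeasurableSpace (SLd d)] [BorelSpace (SLd d)] [MeasurableSpace (XX d)] [BorelSpace (XX d)]
    (m : Measure (XX d)) [IsProbabilityMeasure m]
    (hinv : ∀ g : SLd d, MeasurePreserving (fun x : XX d => g • x) m m)
    (Y : Type) [MeasurableSpace Y] (ν : Measure Y) [IsProbabilityMeasure ν] (T : Y → Y) (hT : Ergodic T ν)
    (φ : Y → SLd d) (hφ : Measurable φ)
    (htr : ∀ᵐ y ∂ν, ∀ C : ℝ, ∀ᶠ n in atTop, ∃ a b, C < |(coc T φ n y).1 a b|) :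
    Ergodic (skew T φ : Y × XX d → Y × XX d) (ν.prod m) := by
  have hsc := sc d
  have hm : Measurable (fun p : Y × XX d => φ p.1 • p.2) := (hφ.comp measurable_fst).smul measurable_snd
  have hmp : MeasurePreserving (skew T φ : Y × XX d → Y × XX d) (ν.prod m) (ν.prod m) :=
    MeasurePreserving.skew_product hT.toMeasurePreserving (g := fun y x => φ y • x) hm
      (ae_of_all _ fun y => (hinv (φ y)).map_eq)
  refine ⟨hmp, ⟨fun S hS hSi => ?_⟩⟩
  have hsec : ∀ y, MeasurableSet (Prod.mk y ⁻¹' S : Set (XX d)) := fun y => measurable_prodMk_left hS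
  -- the sections are trivial
  have htriv : ∀ᵐ y ∂ν, m (Prod.mk y ⁻¹' S) = 0 ∨ m (Prod.mk y ⁻¹' S)ᶜ = 0 := by
    filter_upwards [hrec Y (XX d) ν m T hT.toMeasurePreserving S hS, htr] with y h1 h2
    have hE := hlen d m hinv (Prod.mk y ⁻¹' S) (hsec y)
    have h3 : ∀ k : ℕ, ∃ n, k ≤ n ∧ (m ((Prod.mk (T^[n] y) ⁻¹' S) ∆ (Prod.mk y ⁻¹' S))).toReal < 1 / ((k : ℝ) + 1) := by
      intro k
      obtain ⟨n, hn, hn2⟩ := Filter.frequently_atTop.1 (h1 (1 / ((k : ℝ) + 1)) (by positivity)) k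
      exact ⟨n, hn, hn2⟩
    choose nn hn1 hn2 using h3
    have hnt : Tendsto nn atTop atTop := tendsto_atTop_mono hn1 tendsto_id
    have h4 := hgrp d hd _ hE (fun k => coc T φ (nn k) y) (fun C => hnt.eventually (h2 C)) (by
      refine squeeze_zero (fun k => hE.nonneg _) (fun k => ?_) tendsto_one_div_add_atTop_nhds_zero_nat
      have h7 := hE.inv (coc T φ (nn k) y)⁻¹
      rw [inv_inv] at h7
      refine le_trans h7 ?_
      show (m (((fun x : XX d => (coc T φ (nn k) y)⁻¹ • x) ⁻¹' (Prod.mk y ⁻¹' S)) ∆ (Prod.mk y ⁻¹' S))).toReal ≤ _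
      rw [section_eq T φ S hSi]
      exact (hn2 k).le)
    refine herg d m hinv _ (hsec y) fun g => ?_
    have h5 := h4 g
    exact ((ENNReal.toReal_eq_zero_iff _).1 h5).resolve_right (measure_ne_top _ _)
  -- the measure of the sections is invariant
  have hconst : ∀ y, m (Prod.mk (T y) ⁻¹' S) = m (Prod.mk y ⁻¹' S) := by
    intro y
    have h1 : (Prod.mk y ⁻¹' S : Set (XX d)) = (fun x : XX d => φ y • x) ⁻¹' (Prod.mk (T y) ⁻¹' S) := by
      ext x
      show (y, x) ∈ S ↔ (T y, φ y • x) ∈ S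
      conv_lhs => rw [← hSi]
      exact Iff.rfl
    rw [h1]
    exact ((hinv (φ y)).measure_preimage (hsec (T y)).nullMeasurableSet).symm
  have hA : MeasurableSet {y : Y | m (Prod.mk y ⁻¹' S) = 0} :=
    (measurable_measure_prodMk_left hS) (measurableSet_singleton 0)
  have hAi : T ⁻¹' {y : Y | m (Prod.mk y ⁻¹' S) = 0} = {y : Y | m (Prod.mk y ⁻¹' S) = 0} := by
    ext y
    show m (Prod.mk (T y) ⁻¹' S) = 0 ↔ m (Prod.mk y ⁻¹' S) = 0
    rw [hconst y]
  rw [Filter.eventuallyConst_set']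
  rcases hT.toPreErgodic.measure_self_or_compl_eq_zero hA hAi with h | h
  · right
    have h1 : (ν.prod m) Sᶜ = 0 := by
      rw [Measure.measure_prod_null hS.compl]
      have h' : ∀ᵐ y ∂ν, ¬ m (Prod.mk y ⁻¹' S) = 0 := by
        rw [ae_iff]
        simpa using h
      filter_upwards [htriv, h'] with y h2 h3
      exact h2.resolve_left h3
    exact ae_eq_univ.2 h1
  · left
    have h1 : (ν.prod m) S = 0 := by
      rw [Measure.measure_prod_null hS]
      exact h
    exact ae_eq_empty.2 h1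

end Pool.Agent.P8H71.SK
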