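import Pool.Agent.P8H71.SK.Stm

/-!
# Project SK (helper71), second part: rigidity sequences
-/

set_option autoImplicit false

open MeasureTheory Set Filter Topology
open scoped ENNReal symmDiff

namespace Pool.Agent.P8H71.SK

/-- `T^(n_k) → id` -/
def Rigid {Y : Type} [MeasurableSpace Y] (ν : Measure Y) (T : Y → Y) (n : ℕ → ℕ) : Prop :=
  ∀ A : Set Y, MeasurableSet A → Tendsto (fun k => (ν (((T^[n k]) ⁻¹' A) ∆ A)).toReal) atTop (𝓝 0)

/-- RIG (80 lines). The class of the `S` with this property contains the rectangles `A ×ˢ B` (`m (S_(T^n y) ∆ S_y)` is at most the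
indicator of `T^(-n) A ∆ A`), is closed under complements (same symmetric difference) and countable disjoint unions
(`S_N = ⋃_{i < N}`: the integrand is at most the one of `S_N` plus `m ((S \ S_N)_(T^n y)) + m ((S \ S_N)_y)`, with the integral
`2 (ν × m)(S \ S_N)`): `MeasurableSpace.induction_on_inter` and `generateFrom_prod`. -/
def S_RIG : Prop := ∀ (Y X : Type) [MeasurableSpace Y] [MeasurableSpace X] (ν : Measure Y) [IsProbabilityMeasure ν]
  (m : Measure X) [IsProbabilityMeasure m] (T : Y → Y), MeasurePreserving T ν ν → ∀ n : ℕ → ℕ, Rigid ν T n →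
  ∀ S : Set (Y × X), MeasurableSet S →
  Tendsto (fun k => ∫ y, (m ((Prod.mk (T^[n k] y) ⁻¹' S) ∆ (Prod.mk y ⁻¹' S))).toReal ∂ν) atTop (𝓝 0)

/-- SUB (60 lines). Let `f k ≥ 0` be measurable, bounded by `1`, `∫ f k → 0`, and `B C k` sets with
`∀ C, ∃ᶠ k, c ≤ ν (B C k)`, `c > 0`, `B` antitone in `C`. Then there is a set of positive measure of `y` for which there is a sequence
`k_j → ∞` with `f (k_j) y → 0` and `∀ C, ∀ᶠ j, y ∈ B C (k_j)`. Choose `k_j` increasing with `∫ f (k_j) < 4^(-j)`, `c ≤ ν (B j (k_j))`; then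
`f (k_j) y → 0` for almost all `y` (Borel-Cantelli: `ν {f (k_j) > 2^(-j)} ≤ 2^(-j)`) and `ν (limsup_j B j (k_j)) ≥ c`. -/
def S_SUB : Prop := ∀ (Y : Type) [MeasurableSpace Y] (ν : Measure Y) [IsProbabilityMeasure ν] (f : ℕ → Y → ℝ),
  (∀ k, Measurable (f k)) → (∀ k y, 0 ≤ f k y ∧ f k y ≤ 1) → Tendsto (fun k => ∫ y, f k y ∂ν) atTop (𝓝 0) →
  ∀ (B : ℕ → ℕ → Set Y) (c : ℝ), 0 < c → (∀ C k, MeasurableSet (B C k)) → (∀ C k, B (C + 1) k ⊆ B C k) →
  (∀ C, ∃ᶠ k in atTop, c ≤ (ν (B C k)).toReal) →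
  ∀ Z : Set Y, ν Z = 0 → ∃ y, y ∉ Z ∧ ∃ κ : ℕ → ℕ, Tendsto κ atTop atTop ∧ Tendsto (fun j => f (κ j) y) atTop (𝓝 0) ∧
    ∀ C, ∀ᶠ j in atTop, y ∈ B C (κ j)

end Pool.Agent.P8H71.SK
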