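import Pool.Agent.P8H71.SK.Main
import Pool.Agent.P8H71.SK.Stm2

/-!
# Project SK: the assembly of the second part (helper71)
-/

set_option autoImplicit false

open MeasureTheory Set Filter Topology
open scoped ENNReal symmDiff

namespace Pool.Agent.P8H71.SK

lemma coc_meas {Y : Type} [MeasurableSpace Y] {d : ℕ} [MeasurableSpace (SLd d)] [BorelSpace (SLd d)] {T : Y → Y}
    (hT : Measurable T) {φ : Y → SLd d} (hφ : Measurable φ) (n : ℕ) : Measurable (coc T φ n) := by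
  have hsc := sc d
  induction n with
  | zero => exact measurable_const
  | succ n ih =>
    show Measurable fun y => φ (T^[n] y) * coc T φ n y
    exact (hφ.comp (hT.iterate n)).mul ih

lemma entry_meas {d : ℕ} [MeasurableSpace (SLd d)] [BorelSpace (SLd d)] (C : ℝ) :
    MeasurableSet {g : SLd d | ∃ a b, C < |g.1 a b|} := by
  apply IsOpen.measurableSet
  have h1 : {g : SLd d | ∃ a b, C < |g.1 a b|} = ⋃ a, ⋃ b, {g : SLd d | C < |g.1 a b|} := by
    ext g
    simp
  rw [h1]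
  refine isOpen_iUnion fun a => isOpen_iUnion fun b => isOpen_lt continuous_const ?_
  exact ((continuous_subtype_val : Continuous (Subtype.val : SLd d → Matrix (Fin d) (Fin d) ℝ)).matrix_elem a b).abs

theorem main2 (hgrp : S_GRP) (hlen : S_LEN) (herg : S_ERG) (hrig : S_RIG) (hsub : S_SUB) (d : ℕ) (hd : 2 ≤ d)
    [MeasurableSpace (SLd d)] [BorelSpace (SLd d)] [MeasurableSpace (XX d)] [BorelSpace (XX d)]
    (m : Measure (XX d)) [IsProbabilityMeasure m]
    (hinv : ∀ g : SLd d, MeasurePreserving (fun x : XX d => g • x) m m)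
    (Y : Type) [MeasurableSpace Y] (ν : Measure Y) [IsProbabilityMeasure ν] (T : Y → Y) (hT : Ergodic T ν)
    (n : ℕ → ℕ) (hn : Rigid ν T n) (φ : Y → SLd d) (hφ : Measurable φ) (c : ℝ) (hc : 0 < c)
    (htr : ∀ C : ℕ, ∃ᶠ k in atTop, c ≤ (ν {y | ∃ a b, (C : ℝ) < |(coc T φ (n k) y).1 a b|}).toReal) :
    Ergodic (skew T φ : Y × XX d → Y × XX d) (ν.prod m) := by
  have hsc := sc d
  have hm : Measurable (fun p : Y × XX d => φ p.1 • p.2) := (hφ.comp measurable_fst).smul measurable_snd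
  have hmp : MeasurePreserving (skew T φ : Y × XX d → Y × XX d) (ν.prod m) (ν.prod m) :=
    MeasurePreserving.skew_product hT.toMeasurePreserving (g := fun y x => φ y • x) hm
      (ae_of_all _ fun y => (hinv (φ y)).map_eq)
  refine ⟨hmp, ⟨fun S hS hSi => ?_⟩⟩
  have hsec : ∀ y, MeasurableSet (Prod.mk y ⁻¹' S : Set (XX d)) := fun y => measurable_prodMk_left hS
  have hconst : ∀ y, (Prod.mk y ⁻¹' S : Set (XX d)) = (fun x : XX d => φ y • x) ⁻¹' (Prod.mk (T y) ⁻¹' S) := by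
    intro y
    ext x
    show (y, x) ∈ S ↔ (T y, φ y • x) ∈ S
    conv_lhs => rw [← hSi]
    exact Iff.rfl
  have hc1 : ∀ y, m (Prod.mk (T y) ⁻¹' S) = m (Prod.mk y ⁻¹' S) := by
    intro y
    rw [hconst y]
    exact ((hinv (φ y)).measure_preimage (hsec (T y)).nullMeasurableSet).symm
  have hc2 : ∀ y, m (Prod.mk (T y) ⁻¹' S)ᶜ = m (Prod.mk y ⁻¹' S)ᶜ := by
    intro y
    rw [hconst y, ← preimage_compl]
    exact ((hinv (φ y)).measure_preimage (hsec (T y)).compl.nullMeasurableSet).symm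
  have hA1 : MeasurableSet {y : Y | m (Prod.mk y ⁻¹' S) = 0} :=
    (measurable_measure_prodMk_left hS) (measurableSet_singleton 0)
  have hA2 : MeasurableSet {y : Y | m (Prod.mk y ⁻¹' S)ᶜ = 0} :=
    (measurable_measure_prodMk_left hS.compl) (measurableSet_singleton 0)
  have hi1 : T ⁻¹' {y : Y | m (Prod.mk y ⁻¹' S) = 0} = {y : Y | m (Prod.mk y ⁻¹' S) = 0} := by
    ext y
    show m (Prod.mk (T y) ⁻¹' S) = 0 ↔ m (Prod.mk y ⁻¹' S) = 0
    rw [hc1 y]
  have hi2 : T ⁻¹' {y : Y | m (Prod.mk y ⁻¹' S)ᶜ = 0} = {y : Y | m (Prod.mk y ⁻¹' S)ᶜ = 0} := by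
    ext y
    show m (Prod.mk (T y) ⁻¹' S)ᶜ = 0 ↔ m (Prod.mk y ⁻¹' S)ᶜ = 0
    rw [hc2 y]
  rw [Filter.eventuallyConst_set']
  rcases hT.toPreErgodic.measure_self_or_compl_eq_zero hA1 hi1 with h | h
  swap
  · left
    have h1 : (ν.prod m) S = 0 := by
      rw [Measure.measure_prod_null hS]
      exact h
    exact ae_eq_empty.2 h1
  rcases hT.toPreErgodic.measure_self_or_compl_eq_zero hA2 hi2 with h' | h'
  swap
  · right
    have h1 : (ν.prod m) Sᶜ = 0 := by
      rw [Measure.measure_prod_null hS.compl]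
      exact h'
    exact ae_eq_univ.2 h1
  exfalso
  have hmeas : ∀ k, Measurable fun y => (m ((Prod.mk (T^[n k] y) ⁻¹' S) ∆ (Prod.mk y ⁻¹' S))).toReal := by
    intro k
    have h1 : MeasurableSet (((fun p : Y × XX d => (T^[n k] p.1, p.2)) ⁻¹' S) ∆ S) := by
      refine MeasurableSet.symmDiff ?_ hS
      exact (((hT.measurable.iterate (n k)).comp measurable_fst).prodMk measurable_snd) hS
    exact (measurable_measure_prodMk_left h1).ennreal_toReal
  obtain ⟨y, hy, κ, hκ, hf, hB⟩ := hsub Y ν (fun k y => (m ((Prod.mk (T^[n k] y) ⁻¹' S) ∆ (Prod.mk y ⁻¹' S))).toReal)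
    hmeas (fun k y => ⟨ENNReal.toReal_nonneg, by
      have h1 : m ((Prod.mk (T^[n k] y) ⁻¹' S) ∆ (Prod.mk y ⁻¹' S)) ≤ 1 := prob_le_one
      simpa using ENNReal.toReal_mono ENNReal.one_ne_top h1⟩)
    (hrig Y (XX d) ν m T hT.toMeasurePreserving n hn S hS)
    (fun C k => {y | ∃ a b, (C : ℝ) < |(coc T φ (n k) y).1 a b|}) c hc
    (fun C k => (coc_meas hT.measurable hφ (n k)) (entry_meas (C : ℝ)))
    (fun C k y => by
      rintro ⟨a, b, hab⟩
      refine ⟨a, b, lt_of_le_of_lt ?_ hab⟩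
      exact_mod_cast Nat.le_succ C)
    htr ({y : Y | m (Prod.mk y ⁻¹' S) = 0} ∪ {y : Y | m (Prod.mk y ⁻¹' S)ᶜ = 0}) (measure_union_null h h')
  have hE := hlen d m hinv (Prod.mk y ⁻¹' S) (hsec y)
  have h4 := hgrp d hd _ hE (fun j => coc T φ (n (κ j)) y) (fun C => by
      obtain ⟨C', hC'⟩ := exists_nat_ge C
      filter_upwards [hB C'] with j hj
      obtain ⟨a, b, hab⟩ := hj
      exact ⟨a, b, lt_of_le_of_lt hC' hab⟩) (by
      refine squeeze_zero (fun k => hE.nonneg _) (fun j => ?_) hf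
      have h7 := hE.inv (coc T φ (n (κ j)) y)⁻¹
      rw [inv_inv] at h7
      refine le_trans h7 ?_
      show (m (((fun x : XX d => (coc T φ (n (κ j)) y)⁻¹ • x) ⁻¹' (Prod.mk y ⁻¹' S)) ∆ (Prod.mk y ⁻¹' S))).toReal ≤ _
      rw [section_eq T φ S hSi])
  have h5 := herg d m hinv _ (hsec y) fun g => by
    have h5 := h4 g
    exact ((ENNReal.toReal_eq_zero_iff _).1 h5).resolve_right (measure_ne_top _ _)
  exact hy h5

end Pool.Agent.P8H71.SK
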