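import Mathlib

/-!
# Project SK (helper71): skew products with values in SL(d, R)

Row MP_fb74c1_an. THEOREM: let `T` be an ergodic measure preserving transformation of a probability space (for instance a
typical interval exchange) and `φ : Y → SL(d, ℝ)` measurable whose cocycle tends to infinity almost everywhere. Then the skew
product on `Y × SL(d, ℝ) / SL(d, ℤ)` is ergodic. In particular for all simple functions with values in the matrices with positive
entries (an open set). Everything is done with SETS: `E g = m (g⁻¹ S ∆ S)`.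
-/

set_option autoImplicit false

open MeasureTheory Set Filter Topology
open scoped ENNReal symmDiff

namespace Pool.Agent.P8H71.SK

/-- `SL(d, ℝ)` -/
abbrev SLd (d : ℕ) := Matrix.SpecialLinearGroup (Fin d) ℝ

/-- `SL(d, ℤ)` in `SL(d, ℝ)` -/
def Gam (d : ℕ) : Subgroup (SLd d) := (Matrix.SpecialLinearGroup.map (Int.castRingHom ℝ) : _ →* SLd d).range

/-- the homogeneous space -/
abbrev XX (d : ℕ) := SLd d ⧸ Gam d

/-- symmetric subadditive functions, continuous at `1` -/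
structure Len {G : Type} [Group G] [TopologicalSpace G] (E : G → ℝ) : Prop where
  nonneg : ∀ g, 0 ≤ E g
  mul : ∀ g h, E (g * h) ≤ E g + E h
  inv : ∀ g, E g⁻¹ ≤ E g
  cont : Tendsto E (𝓝 1) (𝓝 0)

/-- elementary matrix `1 + t e_i e_j^T`, `i ≠ j` -/
def el {d : ℕ} (i j : Fin d) (h : i ≠ j) (t : ℝ) : SLd d := ⟨Matrix.transvection i j t, by simp [h]⟩

/-- GEN (100 lines). If `E` vanishes on ONE root subgroup then everywhere. Mautner: in the `SL₂` of `i, j` the diagonal matrix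
with the entries `2, 1/2` is `el i j u * el j i (1/u) * el i j (-u/2) * el j i (-2/u)` (see `d2_eq` of W745/Basic), `u → ∞`, so
`E (a) = 0` (`cont`); `a^n el a^(-n)` or its inverse tends to `1` for all `el p q` with `{p, q}` meeting `{i, j}` (and not fixed by
`a`), so `E` vanishes there; the others are commutators; the transvections generate (Mathlib). -/
def S_GEN : Prop := ∀ (d : ℕ) (E : SLd d → ℝ), Len E → ∀ (i j : Fin d) (h : i ≠ j), (∀ t, E (el i j h t) = 0) → ∀ g, E g = 0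

/-- ONE (80 lines). If the entries of `g n` are unbounded there are `i ≠ j` such that
`(norm of column i of g) * (norm of row j of g⁻¹)` is unbounded: otherwise `g (E_ij) g⁻¹` (`i ≠ j`) is bounded by `M`, and
`g (E_ii - E_jj) g⁻¹ = [g E_ij g⁻¹, g E_ji g⁻¹]` by `2 d M²`, so (as the identity is fixed) all `g E_ij g⁻¹` are bounded, the
entries of `g E_ij g⁻¹` are `g_ai (g⁻¹)_jb`, and `∑_j g_bj (g⁻¹)_jb = 1` gives a large `|(g⁻¹)_jb|` or `|g|` ... so `g` is bounded. -/
def S_ONE : Prop := ∀ (d : ℕ), 2 ≤ d → ∀ g : ℕ → SLd d, (∀ C : ℝ, ∃ n, ∃ a b, C < |(g n).1 a b|) →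
  ∀ C : ℝ, ∃ n, ∃ i j : Fin d, i ≠ j ∧ ∃ a b : Fin d, C < |(g n).1 a i * ((g n)⁻¹).1 j b|

/-- LIM (80 lines). Let `E (g n) → 0` and `g n → ∞`. Then there are nonzero vectors `c`, `e` with `e · c = 0` such that
`E (1 + t c e^T) = 0` for all `t`. From `S_ONE` (along a subsequence, fixed `i ≠ j`): with `s_n = max entry of` `g E_ij g⁻¹`
`→ ∞`, `g_n el(t / s_n) g_n⁻¹ = 1 + t (g_n E_ij g_n⁻¹) / s_n` converges along a subsequence (compactness) to `1 + t R`, `R` of rank
one, `R ≠ 0`, `R² = 0`, so `R = c e^T`; `E (g h g⁻¹) ≤ 2 E g + E h`, and `E` is continuous (from `Len`). -/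
def S_LIM : Prop := ∀ (d : ℕ), 2 ≤ d → ∀ (E : SLd d → ℝ), Len E → ∀ g : ℕ → SLd d,
  (∀ C : ℝ, ∀ᶠ n in atTop, ∃ a b, C < |(g n).1 a b|) → Tendsto (fun n => E (g n)) atTop (𝓝 0) →
  ∃ c e : Fin d → ℝ, c ≠ 0 ∧ e ≠ 0 ∧ e ⬝ᵥ c = 0 ∧
    ∀ (t : ℝ) (h : SLd d), h.1 = 1 + t • Matrix.vecMulVec c e → E h = 0

/-- CNJ (70 lines). For nonzero `c`, `e` with `e · c = 0` some `k ∈ SL(d, ℝ)` satisfies `k (E_01) k⁻¹ = c e^T` up to a scalar:
`k e_0 = c`, and the row `1` of `k⁻¹` is a multiple of `e`. (Extend `c` to a basis of the kernel of `e`, scale for the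
determinant.) -/
def S_CNJ : Prop := ∀ (d : ℕ) (c e : Fin d → ℝ), c ≠ 0 → e ≠ 0 → e ⬝ᵥ c = 0 →
  ∃ (k : SLd d) (i j : Fin d) (h : i ≠ j) (s : ℝ), s ≠ 0 ∧
    ∀ t : ℝ, (k * el i j h t * k⁻¹).1 = 1 + (s * t) • Matrix.vecMulVec c e

/-- GRP (60 lines): from GEN, LIM, CNJ (the function `g ↦ E (k g k⁻¹)` is `Len` too). -/
def S_GRP : Prop := ∀ (d : ℕ), 2 ≤ d → ∀ (E : SLd d → ℝ), Len E → ∀ g : ℕ → SLd d,
  (∀ C : ℝ, ∀ᶠ n in atTop, ∃ a b, C < |(g n).1 a b|) → Tendsto (fun n => E (g n)) atTop (𝓝 0) → ∀ h, E h = 0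

/-- CLO (40 lines): `SL(d, ℤ)` is closed (the entries are integers, `ℤ` is closed in `ℝ`). -/
def S_CLO : Prop := ∀ d : ℕ, IsClosed (Gam d : Set (SLd d))

/-- CON (80 lines). Continuity in measure. `XX d` is locally compact, second countable and (by `S_CLO`) Hausdorff, so `m` is regular.
Either approximate `S` by a compact set and this by an open one, or by the continuity of the action on `L¹`
(Mathlib: `MeasureTheory.Function.LpSpace.DomAct.Continuous`). -/
def S_CON : Prop := ∀ (d : ℕ) [MeasurableSpace (XX d)] [BorelSpace (XX d)] (m : Measure (XX d)) [IsProbabilityMeasure m],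
  (∀ g : SLd d, MeasurePreserving (fun x : XX d => g • x) m m) → ∀ S : Set (XX d), MeasurableSet S →
  Tendsto (fun g : SLd d => (m (((fun x : XX d => g • x) ⁻¹' S) ∆ S)).toReal) (𝓝 1) (𝓝 0)

/-- LEN (50 lines): `E g = m (g⁻¹ S ∆ S)` is `Len` (from CON). -/
def S_LEN : Prop := ∀ (d : ℕ) [MeasurableSpace (XX d)] [BorelSpace (XX d)] (m : Measure (XX d)) [IsProbabilityMeasure m],
  (∀ g : SLd d, MeasurePreserving (fun x : XX d => g • x) m m) → ∀ S : Set (XX d), MeasurableSet S →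
  Len (fun g : SLd d => (m (((fun x : XX d => g • x) ⁻¹' S) ∆ S)).toReal)

/-- ERG (100 lines). `SL(d, ℝ)` acts ergodically. Let `ρ` be a Haar measure of `SL(d, ℝ)` (right translations preserve the null sets).
By Fubini for `m`-almost all `x`, for `ρ`-almost all `g`: `g x ∈ S ↔ x ∈ S`. If `m S > 0`, take such an `x ∈ S`; then
`ρ {g | g x ∉ S} = 0`, for every `y = h x` (the action is transitive) `ρ {g | g y ∉ S} = 0`, and by Fubini and invariance
`m Sᶜ = 0`. -/
def S_ERG : Prop := ∀ (d : ℕ) [MeasurableSpace (XX d)] [BorelSpace (XX d)] (m : Measure (XX d)) [IsProbabilityMeasure m],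
  (∀ g : SLd d, MeasurePreserving (fun x : XX d => g • x) m m) → ∀ S : Set (XX d), MeasurableSet S →
  (∀ g : SLd d, m (((fun x : XX d => g • x) ⁻¹' S) ∆ S) = 0) → m S = 0 ∨ m Sᶜ = 0

/-- REC (80 lines). Recurrence of the sections `S_y = {x | (y, x) ∈ S}`: a countable dense family `D_j` of measurable sets
(Mathlib: `Measure.MeasureDense`, `IsSeparable` for countably generated σ-algebras), `{y | m (S_y ∆ D_j) < ε / 2}` is measurable, and
Poincaré recurrence (`MeasurePreserving.conservative`, `Conservative.ae_mem_imp_frequently_image_mem`). -/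
def S_REC : Prop := ∀ (Y X : Type) [MeasurableSpace Y] [MeasurableSpace X] [MeasurableSpace.CountablyGenerated X]
  (ν : Measure Y) [IsProbabilityMeasure ν] (m : Measure X) [IsProbabilityMeasure m] (T : Y → Y), MeasurePreserving T ν ν →
  ∀ S : Set (Y × X), MeasurableSet S → ∀ᵐ y ∂ν, ∀ ε : ℝ, 0 < ε → ∃ᶠ n in atTop,
    (m ((Prod.mk (T^[n] y) ⁻¹' S) ∆ (Prod.mk y ⁻¹' S))).toReal < ε

/-- the cocycle `φ_n(y) = φ(T^(n-1) y) ⋯ φ(y)` -/
def coc {Y G : Type} [Group G] (T : Y → Y) (φ : Y → G) : ℕ → Y → G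
  | 0, _ => 1
  | n + 1, y => φ (T^[n] y) * coc T φ n y

/-- PER (60 lines). For nonnegative matrices `per (A B) ≥ per A per B`; if all entries of `A` are positive and `det A = 1`, `d ≥ 2`,
then `per A > 1`. -/
def S_PER : Prop := (∀ (d : ℕ) (A B : Matrix (Fin d) (Fin d) ℝ), (∀ i j, 0 ≤ A i j) → (∀ i j, 0 ≤ B i j) →
    A.permanent * B.permanent ≤ (A * B).permanent) ∧
  ∀ (d : ℕ), 2 ≤ d → ∀ A : Matrix (Fin d) (Fin d) ℝ, (∀ i j, 0 < A i j) → A.det = 1 → 1 < A.permanent

/-- POS (60 lines, from PER): products of matrices from a finite set of positive matrices of determinant 1 tend to infinity. -/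
def S_POS : Prop := ∀ (d : ℕ), 2 ≤ d → ∀ (Y : Type) (T : Y → Y) (φ : Y → SLd d), (range φ).Finite →
  (∀ y i j, 0 < (φ y).1 i j) → ∀ y, ∀ C : ℝ, ∀ᶠ n in atTop, ∃ a b, C < |(coc T φ n y).1 a b|

end Pool.Agent.P8H71.SK
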